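import Mathlib
import Pool.Agent.H91.Rho

/-!
# The least prime with decimal digit sum 1286 is 10 ^ 143 - 11 = 99...989
-/

namespace Pool.Agent.Results.MP_70678e_nt.RefuteBC

/-- The sum of the decimal digits of n. -/
def digitSum (n : ℕ) : ℕ := (Nat.digits 10 n).sum

/-- p is the least prime with decimal digit sum k. -/
def IsRho (k p : ℕ) : Prop := IsLeast {n : ℕ | n.Prime ∧ digitSum n = k} p

theorem digitSum_rec (n : ℕ) : digitSum n = n % 10 + digitSum (n / 10) := by
  rcases Nat.eq_zero_or_pos n with h | h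
  · subst h; simp [digitSum]
  · unfold digitSum
    rw [Nat.digits_def' (by norm_num) h]
    simp

theorem digitSum_le (L : ℕ) : ∀ n, n < 10 ^ L →
    digitSum n ≤ 9 * L ∧ (digitSum n = 9 * L → n = 10 ^ L - 1) := by
  induction L with
  | zero => intro n hn; simp at hn; subst hn; simp [digitSum]
  | succ L ih =>
    intro n hn
    rw [digitSum_rec]
    have h1 : n / 10 < 10 ^ L := by
      rw [pow_succ] at hn; omega
    obtain ⟨h2, h3⟩ := ih _ h1
    have h4 : n % 10 < 10 := Nat.mod_lt _ (by norm_num)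
    refine ⟨by omega, fun h => ?_⟩
    have h5 := h3 (by omega)
    have h6 : n % 10 = 9 := by omega
    have h7 : 0 < 10 ^ L := by positivity
    rw [pow_succ]
    omega

theorem digitSum_eq (L : ℕ) : ∀ n, n < 10 ^ L → digitSum n + 1 = 9 * L → 
    ∃ j < L, n = 10 ^ L - 1 - 10 ^ j := by
  induction L with
  | zero => intro n hn h; omega
  | succ L ih =>
    intro n hn h
    rw [digitSum_rec] at h
    have h1 : n / 10 < 10 ^ L := by
      rw [pow_succ] at hn; omega
    obtain ⟨h2, h3⟩ := digitSum_le L _ h1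
    have h4 : n % 10 < 10 := Nat.mod_lt _ (by norm_num)
    have h7 : 0 < 10 ^ L := by positivity
    by_cases h8 : n % 10 = 9
    · obtain ⟨j, hj, hjn⟩ := ih _ h1 (by omega)
      refine ⟨j + 1, by omega, ?_⟩
      have h9 : 10 ^ j < 10 ^ L := Nat.pow_lt_pow_right (by norm_num) hj
      rw [pow_succ, pow_succ]
      omega
    · have h5 := h3 (by omega)
      refine ⟨0, by omega, ?_⟩
      rw [pow_succ]
      omega

set_option maxRecDepth 100000 in
theorem digitSum_N : digitSum (10 ^ 143 - 11) = 1286 := by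
  decide +kernel

/-- The least prime with decimal digit sum 1286 is 10 ^ 143 - 11 = 99...989, and it is
congruent to 989 modulo 1000. -/
theorem result : IsRho 1286 (10 ^ 143 - 11) ∧ (10 ^ 143 - 11) % 1000 = 989 := by
  refine ⟨⟨⟨H91.Rho.prime_N, digitSum_N⟩, ?_⟩, by norm_num⟩
  rintro n ⟨hn, hs⟩
  by_contra hlt
  push Not at hlt
  have hlt' : n < 10 ^ 143 := lt_of_lt_of_le hlt (Nat.sub_le _ _)
  obtain ⟨j, hj, rfl⟩ := digitSum_eq 143 n hlt' (by omega)
  rcases Nat.lt_or_ge j 2 with h | h
  · interval_cases j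
    · norm_num at hlt
    · norm_num at hlt
  · exact H91.Rho.composite j h hj hn

end Pool.Agent.Results.MP_70678e_nt.RefuteBC
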